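import Pool.Agent.W680.WH.Stm

/-!
# WHH-KN2: the operator is bounded below
-/

set_option autoImplicit false

open scoped ComplexConjugate InnerProductSpace
open ContinuousLinearMap Filter

namespace Pool.Agent.W554.WHKN2

open Pool.Agent.W680.WH

theorem kn2 (hom : S_OM) (hopa : S_OPA) (hopc : S_OPC) (hopr : S_OPR) : S_KN2 := by
  obtain ⟨om1, -, om3, -, -⟩ := hom
  obtain ⟨-, -, ⟨hZ, -⟩, -⟩ := hopa
  obtain ⟨c1, c2, -, -, c5, c6, c7, c8, c9, -, -, -, -, -, -, c16, -, c18⟩ := hopc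
  obtain ⟨r1, -⟩ := hopr
  intro P m k W A l hm hP hPm hk hW hl hAZ hA0 hWA
  have hl0 : l ≠ 0 := by
    intro h
    rw [h, norm_zero] at hl
    exact zero_ne_one hl
  have hN0 : ∀ x y : E, ⟪x, (adjoint A * P * A) y⟫_ℂ = ⟪A x, P (A y)⟫_ℂ := by
    intro x y
    change ⟪x, adjoint A (P (A y))⟫_ℂ = _
    rw [adjoint_inner_right]
  -- invariance
  have hRA : ∀ x : E, A (R k⁻¹ x) = l⁻¹ • (W : E →L[ℂ] E) (A x) := by
    intro x
    have h : (W : E →L[ℂ] E) (A x) = l • A (R k⁻¹ x) :=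
      congrArg (fun T : E →L[ℂ] E => T x) hWA
    rw [h, inv_smul_smul₀ hl0]
  have hWP : ∀ x y : E, ⟪(W : E →L[ℂ] E) x, P ((W : E →L[ℂ] E) y)⟫_ℂ = ⟪x, P y⟫_ℂ := by
    intro x y
    have h : (adjoint (W : E →L[ℂ] E)) (P ((W : E →L[ℂ] E) y)) = P y :=
      congrArg (fun T : E →L[ℂ] E => T y) hW
    rw [← h, adjoint_inner_right]
  have hll : (starRingEnd ℂ) l⁻¹ * l⁻¹ = 1 := by
    rw [Complex.conj_mul', norm_inv, hl]
    simp
  have hinv : ∀ x y : E, ⟪A (R k⁻¹ x), P (A (R k⁻¹ y))⟫_ℂ = ⟪A x, P (A y)⟫_ℂ := by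
    intro x y
    rw [hRA, hRA, map_smul, inner_smul_left, inner_smul_right, ← mul_assoc, hll, one_mul, hWP]
  -- off diagonal entries
  have hoff : ∀ n n' : ℤ, n ≠ n' → ⟪A (eb n), P (A (eb n'))⟫_ℂ = 0 := by
    intro n n' hn
    have h := hinv (eb n) (eb n')
    rw [r1, r1, map_smul, map_smul, map_smul, inner_smul_left, inner_smul_right,
      ← Circle.coe_inv_eq_conj, ← mul_assoc, ← Circle.coe_mul] at h
    have h2 : ((((k⁻¹ ^ n)⁻¹ * k⁻¹ ^ n' : Circle) : ℂ) - 1) * ⟪A (eb n), P (A (eb n'))⟫_ℂ = 0 := by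
      rw [sub_mul, one_mul, h, sub_self]
    rcases mul_eq_zero.1 h2 with h3 | h3
    · exfalso
      have h4 : (k⁻¹ ^ n)⁻¹ * k⁻¹ ^ n' = (1 : Circle) := by
        apply Circle.ext
        rw [Circle.coe_one]
        exact sub_eq_zero.1 h3
      have h5 : k ^ (n - n') = 1 := by
        rw [zpow_sub, ← h4]
        simp
      exact hk (n - n') (sub_ne_zero.2 hn) h5
    · exact h3
  -- the vector `F`
  set F : E := A (eb 0) with hF
  have hco0 : ∀ j, co (0 : E) j = 0 := by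
    intro j
    have := c6 0 0 j
    rwa [zero_smul, zero_mul] at this
  have hF0 : ∃ l0, co F l0 ≠ 0 := by
    by_contra hcon
    push Not at hcon
    apply hA0
    refine c18 A 0 hAZ (by rw [zero_mul, mul_zero]) ?_
    have h0 : (0 : E →L[ℂ] E) (eb 0) = (0 : E) := rfl
    rw [h0]
    exact c9 _ _ fun j => by rw [hco0]; exact hcon j
  obtain ⟨l0, hl0F⟩ := hF0
  have hAZ' : ∀ x : E, A (Z x) = Z (A x) := fun x =>
    congrArg (fun T : E →L[ℂ] E => T x) hAZ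
  have hcoA : ∀ n j : ℤ, co (A (eb n)) j = co F (j - n) := by
    intro n
    induction n using Int.induction_on with
    | zero => intro j; rw [sub_zero]
    | succ n ih =>
      intro j
      rw [← hZ, hAZ', c2, ih]
      congr 1; ring
    | pred n ih =>
      intro j
      have h1 : eb (-(n : ℤ)) = Z (eb (-(n : ℤ) - 1)) := by
        rw [hZ]; congr 1; ring
      have h2 := ih (j + 1)
      rw [h1, hAZ', c2] at h2
      have e1 : j + 1 - 1 = j := by ring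
      rw [e1] at h2
      rw [h2]
      congr 1; ring
  have hdiag : ∀ n : ℤ, m * (‖co F l0‖ ^ 2 / om l0) * om n ≤
      (⟪A (eb n), P (A (eb n))⟫_ℂ).re := by
    intro n
    refine le_trans ?_ (hPm (A (eb n)))
    rw [mul_assoc]
    refine mul_le_mul_of_nonneg_left ?_ hm.le
    rw [c7]
    have h1 : om (n + l0) * ‖co F l0‖ ^ 2 ≤ ∑' j, om j * ‖co (A (eb n)) j‖ ^ 2 := by
      have h2 := (c8 (A (eb n))).le_tsum (n + l0)
        (fun j _ => mul_nonneg (om_pos j).le (sq_nonneg _))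
      rw [hcoA, add_sub_cancel_left] at h2
      exact h2
    refine le_trans ?_ h1
    have h3 : om n ≤ om (n + l0) * om l0 := by
      have h4 := om3 (n + l0) (-l0)
      rw [om_neg, add_neg_cancel_right] at h4
      exact h4
    have h5 := om_pos l0
    rw [div_mul_eq_mul_div, div_le_iff₀ h5]
    calc ‖co F l0‖ ^ 2 * om n ≤ ‖co F l0‖ ^ 2 * (om (n + l0) * om l0) :=
          mul_le_mul_of_nonneg_left h3 (sq_nonneg _)
      _ = om (n + l0) * ‖co F l0‖ ^ 2 * om l0 := by ring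
  set c : ℝ := m * (‖co F l0‖ ^ 2 / om l0) with hc
  have hc0 : 0 < c := by
    have h1 : 0 < ‖co F l0‖ := norm_pos_iff.2 hl0F
    have h2 := om_pos l0
    positivity
  refine ⟨fun n n' hn => ?_, ⟨c, hc0, fun n => ?_⟩, ?_⟩
  · rw [hN0]; exact hoff n n' hn
  · rw [hN0]; exact hdiag n
  -- bounded below
  have hPsym : ∀ x y : E, ⟪P x, y⟫_ℂ = ⟪x, P y⟫_ℂ := by
    intro x y
    rw [← adjoint_inner_right, hP]
  have hrow : ∀ (f : E) (n : ℤ), ⟪A f, P (A (eb n))⟫_ℂ =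
      (starRingEnd ℂ) (co f n) * ⟪A (eb n), P (A (eb n))⟫_ℂ := by
    intro f n
    have h1 : HasSum (fun j => ⟪P (A (eb n)), A (co f j • eb j)⟫_ℂ) ⟪P (A (eb n)), A f⟫_ℂ :=
      (c16 f).mapL ((innerSL ℂ (P (A (eb n)))) ∘L A)
    have h2 : HasSum (fun j => ⟪P (A (eb n)), A (co f j • eb j)⟫_ℂ)
        ⟪P (A (eb n)), A (co f n • eb n)⟫_ℂ := by
      refine hasSum_single n fun j hj => ?_
      rw [map_smul, inner_smul_right, hPsym, ← inner_conj_symm, hPsym]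
      rw [hoff j n hj, map_zero, mul_zero]
    have h3 := h1.unique h2
    rw [map_smul, inner_smul_right] at h3
    rw [← inner_conj_symm, h3, map_mul, inner_conj_symm]
  have hlow : ∀ f : E, c * ‖f‖ ^ 2 ≤ (⟪A f, P (A f)⟫_ℂ).re := by
    intro f
    have h1 : HasSum (fun n => ⟪A f, (P * A) (co f n • eb n)⟫_ℂ) ⟪A f, (P * A) f⟫_ℂ :=
      (c16 f).mapL ((innerSL ℂ (A f)) ∘L (P * A))
    have h2 : ∀ n, ⟪A f, (P * A) (co f n • eb n)⟫_ℂ =
        ((‖co f n‖ ^ 2 : ℝ) : ℂ) * ⟪A (eb n), P (A (eb n))⟫_ℂ := by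
      intro n
      change ⟪A f, P (A (co f n • eb n))⟫_ℂ = _
      rw [map_smul, map_smul, inner_smul_right, hrow, ← mul_assoc, Complex.mul_conj']
      push_cast
      rfl
    simp only [h2] at h1
    have h3 := Complex.hasSum_re h1
    have h4 : ∀ n, c * (om n * ‖co f n‖ ^ 2) ≤
        (((‖co f n‖ ^ 2 : ℝ) : ℂ) * ⟪A (eb n), P (A (eb n))⟫_ℂ).re := by
      intro n
      rw [Complex.re_ofReal_mul]
      have := mul_le_mul_of_nonneg_left (hdiag n) (sq_nonneg ‖co f n‖)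
      calc c * (om n * ‖co f n‖ ^ 2) = ‖co f n‖ ^ 2 * (c * om n) := by ring
        _ ≤ _ := this
    have h5 := hasSum_le h4 ((c8 f).hasSum.mul_left c) h3
    rw [← c7] at h5
    exact h5
  refine ⟨Real.sqrt (c / (‖P‖ + 1)), Real.sqrt_pos.2 (by positivity), fun f => ?_⟩
  have hup : (⟪A f, P (A f)⟫_ℂ).re ≤ (‖P‖ + 1) * ‖A f‖ ^ 2 := by
    have h1 : (⟪A f, P (A f)⟫_ℂ).re ≤ ‖⟪A f, P (A f)⟫_ℂ‖ := Complex.re_le_norm _
    have h2 := norm_inner_le_norm (𝕜 := ℂ) (A f) (P (A f))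
    have h3 := P.le_opNorm (A f)
    have h4 : ‖A f‖ * ‖P (A f)‖ ≤ ‖A f‖ * (‖P‖ * ‖A f‖) :=
      mul_le_mul_of_nonneg_left h3 (norm_nonneg _)
    nlinarith [sq_nonneg ‖A f‖]
  have h6 := (hlow f).trans hup
  have h7 : c / (‖P‖ + 1) * ‖f‖ ^ 2 ≤ ‖A f‖ ^ 2 := by
    rw [div_mul_eq_mul_div, div_le_iff₀ (by positivity)]
    linarith
  refine le_of_sq_le_sq ?_ (norm_nonneg _)
  rw [mul_pow, Real.sq_sqrt (by positivity)]
  exact h7

end Pool.Agent.W554.WHKN2
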